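import Pool.Agent.MP_ee8c61_ag.M3.Mod

/-! The family of Gauss valuations of a rational function field over a valued field. -/

namespace Pool.Agent.MP_ee8c61_ag.Q3G

open M3 Polynomial Filter Topology
open scoped IntermediateField

noncomputable section

variable {K L : Type} [Field K] [Field L] [Algebra K L]

open Classical in
/-- The absolute value of a valuation. -/
def ab (x : DV K) : AbsoluteValue K ℝ where
  toFun c := if c = 0 then 0 else Real.exp (-x.v c)
  map_mul' a b := by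
    by_cases ha : a = 0
    · simp [ha]
    by_cases hb : b = 0
    · simp [hb]
    simp [ha, hb, x.mul a b ha hb, ← Real.exp_add, add_comm]
  nonneg' c := by positivity
  eq_zero' c := by by_cases h : c = 0 <;> simp [h]
  add_le' a b := by
    by_cases ha : a = 0
    · simp [ha]
    by_cases hb : b = 0
    · simp [hb]
    by_cases h : a + b = 0
    · simp only [h, if_true]
      positivity
    simp only [ha, hb, h, if_false]
    rcases min_le_iff.1 (x.add a b ha hb h) with e | e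
    · exact le_add_of_le_of_nonneg (by simpa using e) (by positivity)
    · exact le_add_of_nonneg_of_le (by positivity) (by simpa using e)

theorem ab_ne (x : DV K) {c : K} (h : c ≠ 0) : ab x c = Real.exp (-x.v c) := if_neg h

theorem ab_na (x : DV K) : IsNonarchimedean (ab x) := fun a b => by
  by_cases ha : a = 0
  · simp [ha]
  by_cases hb : b = 0
  · simp [hb]
  by_cases h : a + b = 0
  · simp [h]
  rw [ab_ne x ha, ab_ne x hb, ab_ne x h]
  simpa using x.add a b ha hb h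

/-- The value of a polynomial. -/
def wp (x : DV K) (γ : ℝ) (p : K[X]) : ℝ := -Real.log (p.gaussNorm (ab x) (Real.exp (-γ)))

variable {x : DV K} {γ : ℝ} {p q : K[X]}

theorem gn_pos (hp : p ≠ 0) : 0 < p.gaussNorm (ab x) (Real.exp (-γ)) :=
  (gaussNorm_nonneg _ _ (Real.exp_pos _).le).lt_of_ne' fun h => hp
    ((gaussNorm_eq_zero_iff _ _ (fun _ => (ab x).eq_zero.1) (Real.exp_pos _)).1 h)

theorem term {c : K} (hc : c ≠ 0) (i : ℕ) :
    ab x c * Real.exp (-γ) ^ i = Real.exp (-(x.v c + i * γ)) := by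
  rw [ab_ne x hc, ← Real.exp_nat_mul, ← Real.exp_add]
  ring_nf

theorem wp_mul (hp : p ≠ 0) (hq : q ≠ 0) : wp x γ (p * q) = wp x γ p + wp x γ q := by
  rw [wp, gaussNorm_mul (ab_na x) (Real.exp_pos _), Real.log_mul (gn_pos hp).ne' (gn_pos hq).ne',
    neg_add, wp, wp]

theorem wp_le {i : ℕ} (hi : p.coeff i ≠ 0) : wp x γ p ≤ x.v (p.coeff i) + i * γ := by
  have := le_gaussNorm (ab x) p (Real.exp_pos (-γ)).le i
  rw [term hi, ← Real.le_log_iff_exp_le (gn_pos (by rintro rfl; simp at hi))] at this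
  rw [wp]
  linarith

theorem wp_eq (hp : p ≠ 0) : ∃ i, p.coeff i ≠ 0 ∧ wp x γ p = x.v (p.coeff i) + i * γ := by
  obtain ⟨i, hi⟩ := exists_eq_gaussNorm (ab x) (Real.exp (-γ)) p
  have h0 : p.coeff i ≠ 0 := fun h => (gn_pos (x := x) (γ := γ) hp).ne' (by simp [hi, h])
  exact ⟨i, h0, by rw [wp, hi, term h0, Real.log_exp, neg_neg]⟩

theorem wp_add (h : p + q ≠ 0) :
    min (wp x γ p) (wp x γ q) ≤ wp x γ (p + q) := by
  have := isNonarchimedean_gaussNorm (ab x) (ab_na x) (Real.exp_pos (-γ)).le p q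
  simp only [wp, min_le_iff, neg_le_neg_iff]
  exact (le_max_iff.1 this).imp (Real.log_le_log (gn_pos h)) (Real.log_le_log (gn_pos h))

theorem wp_loc {l : Filter ℝ} {i : ℕ} (hi : p.coeff i ≠ 0) (h : ∀ j, p.coeff j ≠ 0 →
    ∀ᶠ γ : ℝ in l, x.v (p.coeff i) + i * γ ≤ x.v (p.coeff j) + j * γ) :
    ∀ᶠ γ in l, wp x γ p = x.v (p.coeff i) + i * γ := by
  refine ((eventually_all_finset p.support).2 fun j hj => h j (mem_support_iff.1 hj)).mono
    fun γ hγ => (wp_le hi).antisymm ?_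
  obtain ⟨j, hj, e⟩ := wp_eq (x := x) (γ := γ) (p := p) (by rintro rfl; simp at hi)
  exact e ▸ hγ j (mem_support_iff.2 hj)

theorem wp_cont (hp : p ≠ 0) : Continuous fun γ => wp x γ p := by
  have : (fun γ => wp x γ p) = fun γ => p.support.inf' (support_nonempty.2 hp)
      fun i => (x.v (p.coeff i) : ℝ) + i * γ := funext fun γ => by
    obtain ⟨i, hi, e⟩ := wp_eq (x := x) (γ := γ) hp
    exact le_antisymm (Finset.le_inf' _ _ fun j hj => wp_le (mem_support_iff.1 hj))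
      (e ▸ Finset.inf'_le (fun i => (x.v (p.coeff i) : ℝ) + i * γ) (mem_support_iff.2 hi))
  rw [this]
  exact Continuous.finset_inf'_apply _ fun i _ => by fun_prop

theorem wp_irr (hp : p ≠ 0) {γ₀ : ℝ} (h : Irrational γ₀) :
    ∃ i c : ℤ, ∀ᶠ γ in 𝓝 γ₀, wp x γ p = i * γ + c := by
  obtain ⟨i, hi, e⟩ := wp_eq (x := x) (γ := γ₀) hp
  refine ⟨i, x.v (p.coeff i), (wp_loc hi fun j hj => ?_).mono fun γ hγ => by rw [hγ]; simp; ring⟩
  by_cases hij : j = i
  · simp [hij]
  have h1 := (e ▸ wp_le (γ := γ₀) hj :).lt_of_ne fun e2 => h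
    ⟨(x.v (p.coeff i) - x.v (p.coeff j)) / (j - i), by
      have : (j : ℝ) - i ≠ 0 := sub_ne_zero.2 (by exact_mod_cast hij)
      push_cast
      field_simp
      linarith⟩
  exact (ContinuousAt.eventually_lt (f := fun γ : ℝ => (x.v (p.coeff i) : ℝ) + i * γ)
    (g := fun γ : ℝ => (x.v (p.coeff j) : ℝ) + j * γ) (by fun_prop) (by fun_prop) h1).mono
    fun _ => le_of_lt

theorem wp_top (hp : p ≠ 0) :
    ∀ᶠ γ in atTop, wp x γ p = x.v p.trailingCoeff + p.natTrailingDegree * γ :=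
  wp_loc (trailingCoeff_nonzero_iff_nonzero.2 hp) fun j hj => by
    rcases (natTrailingDegree_le_of_ne_zero hj).eq_or_lt with e | e
    · simp [e]
    have : (p.natTrailingDegree : ℝ) + 1 ≤ j := by exact_mod_cast e
    filter_upwards [eventually_ge_atTop 0, eventually_ge_atTop
      ((x.v (p.coeff p.natTrailingDegree) : ℝ) - x.v (p.coeff j))] with γ h1 h2
    nlinarith

theorem wp_bot (hp : p ≠ 0) : ∀ᶠ γ in atBot, wp x γ p = x.v p.leadingCoeff + p.natDegree * γ :=
  wp_loc (leadingCoeff_ne_zero.2 hp) fun j hj => by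
    rcases (le_natDegree_of_ne_zero hj).eq_or_lt with e | e
    · simp [e]
    have : (j : ℝ) + 1 ≤ p.natDegree := by exact_mod_cast e
    filter_upwards [eventually_le_atBot 0, eventually_le_atBot
      ((x.v (p.coeff j) : ℝ) - x.v (p.coeff p.natDegree))] with γ h1 h2
    nlinarith

theorem wp_monomial {c : K} (hc : c ≠ 0) (i : ℕ) : wp x γ (monomial i c) = x.v c + i * γ := by
  rw [wp, gaussNorm_monomial, term hc, Real.log_exp, neg_neg]

/-- `L` is the field of rational functions in `y`. -/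
structure Rat (K : Type) [Field K] [Algebra K L] (y : L) : Prop where
  tr : Transcendental K y
  gen : K⟮y⟯ = ⊤

variable {y : L}

theorem Rat.ne (h : Rat K y) (hp : p ≠ 0) : aeval y p ≠ 0 :=
  (map_ne_zero_iff _ (transcendental_iff_injective.1 h.tr)).2 hp

theorem Rat.frac (h : Rat K y) {g : L} (hg : g ≠ 0) :
    ∃ p q : K[X], p ≠ 0 ∧ q ≠ 0 ∧ g * aeval y q = aeval y p := by
  obtain ⟨p, q, rfl⟩ := (IntermediateField.mem_adjoin_simple_iff K (α := y) g).1
    (h.gen ▸ IntermediateField.mem_top)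
  have hq := (div_ne_zero_iff.1 hg).2
  exact ⟨p, q, fun e => by simp [e] at hg, fun e => by simp [e] at hq, div_mul_cancel₀ _ hq⟩

open Classical in
/-- The Gauss valuation with `w γ y = γ`. -/
def w (x : DV K) (y : L) (γ : ℝ) (g : L) : ℝ :=
  if h : ∃ p : K[X] × K[X], p.1 ≠ 0 ∧ p.2 ≠ 0 ∧ g * aeval y p.2 = aeval y p.1 then
    wp x γ h.choose.1 - wp x γ h.choose.2 else 0

theorem Rat.w_eq (h : Rat K y) {g : L} (hp : p ≠ 0) (hq : q ≠ 0) (e : g * aeval y q = aeval y p) :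
    w x y γ g = wp x γ p - wp x γ q := by
  have h1 : ∃ p : K[X] × K[X], p.1 ≠ 0 ∧ p.2 ≠ 0 ∧ g * aeval y p.2 = aeval y p.1 :=
    ⟨(p, q), hp, hq, e⟩
  obtain ⟨h2, h3, h4⟩ := h1.choose_spec
  have h5 : h1.choose.1 * q = p * h1.choose.2 := transcendental_iff_injective.1 h.tr (by
    rw [map_mul, map_mul, ← h4, ← e]; ring)
  have := congrArg (wp x γ) h5
  rw [wp_mul h2 hq, wp_mul hp h3] at this
  rw [w, dif_pos h1]
  linarith

theorem Rat.w_zero (h : Rat K y) : w x y γ 0 = 0 :=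
  dif_neg fun ⟨_, h1, _, h2⟩ => h.ne h1 (by rw [← h2, zero_mul])

theorem wp_one : wp x γ 1 = 0 := by simpa [x.one] using wp_monomial (x := x) (γ := γ) one_ne_zero 0

theorem Rat.w_poly (h : Rat K y) (hp : p ≠ 0) : w x y γ (aeval y p) = wp x γ p := by
  rw [h.w_eq hp one_ne_zero (by simp), wp_one, sub_zero]

theorem Rat.w_base (h : Rat K y) (c : K) : w x y γ (algebraMap K L c) = x.v c := by
  by_cases hc : c = 0
  · simp [hc, h.w_zero, x.zero]
  have := h.w_poly (x := x) (γ := γ) (p := monomial 0 c) (by simpa using hc)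
  rw [wp_monomial hc] at this
  simpa using this

theorem Rat.w_y (h : Rat K y) : w x y γ y = γ := by
  simpa [wp_monomial, x.one] using h.w_poly (x := x) (γ := γ) (p := monomial 1 1) (by simp)

theorem Rat.w_mul (h : Rat K y) {g g' : L} (hg : g ≠ 0) (hg' : g' ≠ 0) :
    w x y γ (g * g') = w x y γ g + w x y γ g' := by
  obtain ⟨p, q, hp, hq, e⟩ := h.frac hg
  obtain ⟨p', q', hp', hq', e'⟩ := h.frac hg'
  rw [h.w_eq (mul_ne_zero hp hp') (mul_ne_zero hq hq') (by rw [map_mul, map_mul, ← e, ← e']; ring),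
    h.w_eq hp hq e, h.w_eq hp' hq' e', wp_mul hp hp', wp_mul hq hq']
  ring

theorem Rat.w_add (h : Rat K y) {g g' : L} (hg : g ≠ 0) (hg' : g' ≠ 0) (h0 : g + g' ≠ 0) :
    min (w x y γ g) (w x y γ g') ≤ w x y γ (g + g') := by
  obtain ⟨p, q, hp, hq, e⟩ := h.frac hg
  obtain ⟨p', q', hp', hq', e'⟩ := h.frac hg'
  have e2 : (g + g') * aeval y (q * q') = aeval y (p * q' + p' * q) := by
    rw [map_add, map_mul, map_mul, map_mul, ← e, ← e']; ring
  have n : p * q' + p' * q ≠ 0 := fun e3 =>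
    mul_ne_zero h0 (h.ne (mul_ne_zero hq hq')) (by rw [e2, e3, map_zero])
  have := wp_add (x := x) (γ := γ) n
  rw [h.w_eq n (mul_ne_zero hq hq') e2, h.w_eq hp hq e, h.w_eq hp' hq' e', wp_mul hq hq']
  rw [wp_mul hp hq', wp_mul hp' hq] at this
  rcases min_le_iff.1 this with e | e
  · exact min_le_of_left_le (by linarith)
  · exact min_le_of_right_le (by linarith)

theorem Rat.w_cont (h : Rat K y) (g : L) : Continuous fun γ => w x y γ g := by
  by_cases hg : g = 0
  · simpa [hg, h.w_zero] using continuous_const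
  obtain ⟨p, q, hp, hq, e⟩ := h.frac hg
  simp only [h.w_eq hp hq e]
  exact (wp_cont hp).sub (wp_cont hq)

theorem Rat.w_irr (h : Rat K y) (g : L) {γ₀ : ℝ} (hγ : Irrational γ₀) :
    ∃ i c : ℤ, ∀ᶠ γ in 𝓝 γ₀, w x y γ g = i * γ + c := by
  by_cases hg : g = 0
  · exact ⟨0, 0, by simp [hg, h.w_zero]⟩
  obtain ⟨p, q, hp, hq, e⟩ := h.frac hg
  obtain ⟨i, c, h1⟩ := wp_irr (x := x) hp hγ
  obtain ⟨j, d, h2⟩ := wp_irr (x := x) hq hγ
  refine ⟨i - j, c - d, ?_⟩
  filter_upwards [h1, h2] with γ e1 e2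
  rw [h.w_eq hp hq e, e1, e2]
  push_cast
  ring

theorem Rat.w_int (h : Rat K y) (a : ℤ) {b : ℕ} (hb : 0 < b) (g : L) :
    ∃ n : ℤ, (n : ℝ) = b * w x y (a / b) g := by
  have k : ∀ p : K[X], p ≠ 0 → ∃ n : ℤ, (n : ℝ) = b * wp x (a / b) p := fun p hp => by
    obtain ⟨i, -, e⟩ := wp_eq (x := x) (γ := a / b) hp
    refine ⟨b * x.v (p.coeff i) + i * a, ?_⟩
    rw [e]
    push_cast
    field_simp
  by_cases hg : g = 0
  · exact ⟨0, by simp [hg, h.w_zero]⟩
  obtain ⟨p, q, hp, hq, e⟩ := h.frac hg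
  obtain ⟨m, hm⟩ := k p hp
  obtain ⟨n, hn⟩ := k q hq
  exact ⟨m - n, by rw [h.w_eq hp hq e, mul_sub, ← hm, ← hn, Int.cast_sub]⟩

/-- The discrete valuation with `v y = a` that is `b` times `x` on the base. -/
theorem Rat.exists_dv (h : Rat K y) (x : DV K) (a : ℤ) {b : ℕ} (hb : 0 < b) :
    ∃ Γ : DV L, ∀ g, (Γ.v g : ℝ) = b * w x y (a / b) g := by
  choose v hv using h.w_int (x := x) a hb
  refine ⟨⟨v, ?_, fun g g' hg hg' => ?_, fun g g' hg hg' h0 => ?_⟩, hv⟩
  · have : (v 0 : ℝ) = 0 := by rw [hv, h.w_zero, mul_zero]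
    exact_mod_cast this
  · have : (v (g * g') : ℝ) = v g + v g' := by rw [hv, hv, hv, h.w_mul hg hg', mul_add]
    exact_mod_cast this
  · have : min (v g : ℝ) (v g') ≤ v (g + g') := by
      rw [hv, hv, hv, ← mul_min_of_nonneg _ _ (Nat.cast_nonneg b)]
      exact mul_le_mul_of_nonneg_left (h.w_add hg hg' h0) (Nat.cast_nonneg b)
    exact_mod_cast this

end

end Pool.Agent.MP_ee8c61_ag.Q3G
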