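import Pool.Agent.MP_ee8c61_ag.Q3G.Gauss
import Pool.Agent.MP_ee8c61_ag.M3.FDefs

/-! Ends of the Gauss family, its curves, and constancy of values along the family. -/

namespace Pool.Agent.MP_ee8c61_ag.Q3G

open M3 Polynomial Filter Topology

noncomputable section

variable {K L : Type} [Field K] [Field L] [Algebra K L] {x : DV K} {y : L} {γ : ℝ}

theorem v_pow (G : DV L) {g : L} (hg : g ≠ 0) (n : ℕ) : G.v (g ^ n) = n * G.v g := by
  induction n with
  | zero => simp [G.one]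
  | succ n ih => rw [pow_succ, G.mul _ _ (pow_ne_zero n hg) hg, ih]; push_cast; ring

theorem v_zpow (G : DV L) {g : L} (hg : g ≠ 0) (n : ℤ) : G.v (g ^ n) = n * G.v g := by
  obtain ⟨n, rfl | rfl⟩ := Int.eq_nat_or_neg n <;> simp [G.inv, v_pow G hg]

theorem v_triv {G : DV L} (hG : ∀ c : K, algebraMap K L c ∈ G.F 0) (c : K) :
    G.v (algebraMap K L c) = 0 := by
  by_cases hc : c = 0
  · simp [hc, G.zero]
  have h1 := (hG c).resolve_left (by simpa using hc)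
  have h2 := (hG c⁻¹).resolve_left (by simpa using hc)
  rw [map_inv₀, G.inv] at h2
  omega

theorem v_poly {G : DV L} (hG : ∀ c : K, algebraMap K L c ∈ G.F 0) (hy : y ≠ 0) {p : K[X]} {i : ℕ}
    (hi : p.coeff i ≠ 0) (h : ∀ j, p.coeff j ≠ 0 → j ≠ i → i * G.v y < j * G.v y) :
    G.v (aeval y p) = i * G.v y := by
  have t : ∀ j, p.coeff j ≠ 0 → G.v (algebraMap K L (p.coeff j) * y ^ j) = j * G.v y := fun j hj => by
    rw [G.mul _ _ (by simpa using hj) (pow_ne_zero _ hy), v_triv hG, v_pow G hy, zero_add]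
  have e : aeval y p - algebraMap K L (p.coeff i) * y ^ i ∈ G.F (i * G.v y + 1) := by
    rw [aeval_def, eval₂_eq_sum, Polynomial.sum, ← Finset.add_sum_erase _ _ (mem_support_iff.2 hi),
      add_sub_cancel_left]
    refine sum_mem fun j hj => Or.inr ?_
    obtain ⟨h1, h2⟩ := Finset.mem_erase.1 hj
    rw [t j (mem_support_iff.1 h2)]
    exact h j (mem_support_iff.1 h2) h1
  have n : algebraMap K L (p.coeff i) * y ^ i ≠ 0 :=
    mul_ne_zero (by simpa using hi) (pow_ne_zero _ hy)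
  have t0 := t i hi
  have h1 : aeval y p ∉ G.F (i * G.v y + 1) := fun h1 => by
    have := (sub_mem h1 e).resolve_left (by simpa using n)
    rw [sub_sub_cancel] at this
    omega
  have h2 := add_mem (G.F_anti (Int.le_add_one le_rfl) e) (Or.inr t0.ge)
  rw [sub_add_cancel] at h2
  rw [DV.mem_F, not_or] at h1
  have := h2.resolve_left h1.1
  omega

theorem Rat.y_ne (h : Rat K y) : y ≠ 0 := by simpa using h.ne X_ne_zero

/-- For large `γ` the valuation follows the section `y = 0`. -/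
theorem Rat.w_top (h : Rat K y) (x : DV K) {G : DV L} (hG : ∀ c : K, algebraMap K L c ∈ G.F 0)
    (h1 : G.v y = 1) {g : L} (hg : g ≠ 0) :
    ∃ c : ℤ, ∀ᶠ γ in atTop, w x y γ g = G.v g * γ + c := by
  obtain ⟨p, q, hp, hq, e⟩ := h.frac hg
  have k : ∀ p : K[X], p ≠ 0 → G.v (aeval y p) = p.natTrailingDegree := fun p hp => by
    simpa [h1] using v_poly hG h.y_ne (trailingCoeff_nonzero_iff_nonzero.2 hp) fun j hj hn => by
      simpa [h1] using (natTrailingDegree_le_of_ne_zero hj).lt_of_ne hn.symm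
  have e2 := G.mul _ _ hg (h.ne hq)
  rw [e, k p hp, k q hq] at e2
  have e3 : (G.v g : ℝ) = p.natTrailingDegree - q.natTrailingDegree := by
    rw [eq_sub_iff_add_eq]; exact_mod_cast e2.symm
  refine ⟨x.v p.trailingCoeff - x.v q.trailingCoeff, ?_⟩
  filter_upwards [wp_top (x := x) hp, wp_top (x := x) hq] with γ e4 e5
  rw [h.w_eq hp hq e, e4, e5, e3]
  push_cast
  ring

/-- For very negative `γ` the valuation follows the section `y = ∞`. -/
theorem Rat.w_bot (h : Rat K y) (x : DV K) {G : DV L} (hG : ∀ c : K, algebraMap K L c ∈ G.F 0)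
    (h1 : G.v y = -1) {g : L} (hg : g ≠ 0) :
    ∃ c : ℤ, ∀ᶠ γ in atBot, w x y γ g = -G.v g * γ + c := by
  obtain ⟨p, q, hp, hq, e⟩ := h.frac hg
  have k : ∀ p : K[X], p ≠ 0 → G.v (aeval y p) = -p.natDegree := fun p hp => by
    simpa [h1] using v_poly hG h.y_ne (leadingCoeff_ne_zero.2 hp) fun j hj hn => by
      simpa [h1] using (le_natDegree_of_ne_zero hj).lt_of_ne hn
  have e2 := G.mul _ _ hg (h.ne hq)
  rw [e, k p hp, k q hq] at e2
  have e3 : (G.v g : ℝ) = q.natDegree - p.natDegree := by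
    have : G.v g = q.natDegree - p.natDegree := by omega
    exact_mod_cast this
  refine ⟨x.v p.leadingCoeff - x.v q.leadingCoeff, ?_⟩
  filter_upwards [wp_bot (x := x) hp, wp_bot (x := x) hq] with γ e4 e5
  rw [h.w_eq hp hq e, e4, e5, e3]
  push_cast
  ring

/-- `Γ` is the discrete valuation at the rational point `γ` of the family. -/
def Gs (x : DV K) (y : L) (γ : ℚ) (Γ : DV L) : Prop := ∀ g, (Γ.v g : ℝ) = γ.den * w x y γ g

theorem Rat.exists_gs (h : Rat K y) (x : DV K) (γ : ℚ) : ∃ Γ, Gs x y γ Γ := by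
  obtain ⟨Γ, hΓ⟩ := h.exists_dv x γ.num γ.den_pos
  exact ⟨Γ, fun g => by rw [hΓ, Rat.cast_def]⟩

section
variable {q : ℚ} {Γ : DV L}

theorem Gs.base (g : Gs x y q Γ) (h : Rat K y) (c : K) :
    Γ.v (algebraMap K L c) = q.den * x.v c := by
  have := g (algebraMap K L c)
  rw [h.w_base] at this
  exact_mod_cast this

theorem Gs.vy (g : Gs x y q Γ) (h : Rat K y) : Γ.v y = q.num := by
  have := g y
  rw [h.w_y, Rat.cast_def, mul_div_cancel₀ _ (Nat.cast_ne_zero.2 q.den_nz)] at this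
  exact_mod_cast this

theorem Gs.sur (g : Gs x y q Γ) (h : Rat K y) (hx : ∃ π, x.v π = 1) : ∃ π, Γ.v π = 1 := by
  obtain ⟨π, hπ⟩ := hx
  have p0 : algebraMap K L π ≠ 0 := by
    rw [_root_.map_ne_zero]
    rintro rfl
    simp [x.zero] at hπ
  obtain ⟨a, b, e⟩ := q.isCoprime_num_den
  refine ⟨y ^ a * algebraMap K L π ^ b, ?_⟩
  rw [Γ.mul _ _ (zpow_ne_zero _ h.y_ne) (zpow_ne_zero _ p0), v_zpow Γ h.y_ne, v_zpow Γ p0, g.vy h,
    g.base h, hπ, mul_one, e]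

theorem Gs.pos (g : Gs x y q Γ) {u : L} : u ∈ Γ.F 1 ↔ u = 0 ∨ 0 < w x y q u := by
  refine or_congr_right ?_
  rw [← mul_pos_iff_of_pos_left (Nat.cast_pos.2 q.den_pos : (0 : ℝ) < q.den), ← g, Int.cast_pos]
  omega

theorem Gs.gen (g : Gs x y q Γ) {R : Finset L} {r : L} : GnS R Γ r ↔
    r ∈ R ∧ r ≠ 0 ∧ ∀ r' ∈ R, r' ≠ 0 → ¬w x y q r' < w x y q r := by
  refine and_congr_right fun _ => and_congr_right fun h0 => forall₂_congr fun r' _ => ?_
  by_cases h1 : r' = 0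
  · simp [h1]
  rw [DV.mem_F, div_eq_mul_inv, Γ.mul _ _ h1 (inv_ne_zero h0), Γ.inv, not_lt,
    ← mul_le_mul_iff_right₀ (Nat.cast_pos.2 q.den_pos : (0 : ℝ) < q.den), ← g, ← g, Int.cast_le]
  simp [h0, h1]

variable [Algebra ℂ K] [Algebra ℂ L] [IsScalarTower ℂ K L]

theorem Gs.nc (g : Gs x y q Γ) (h : Rat K y) (hx : ∃ π, x.v π = 1) : ∃ u, NC Γ u := by
  obtain ⟨π, hπ⟩ := hx
  have p0 : π ≠ 0 := by
    rintro rfl
    simp [x.zero] at hπ
  have p1 : algebraMap K L (π ^ (-q.num)) ≠ 0 := (_root_.map_ne_zero _).2 (zpow_ne_zero _ p0)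
  have p2 : x.v (π ^ (-q.num)) = -q.num := by rw [v_zpow x p0, hπ, mul_one]
  refine ⟨algebraMap K L (π ^ (-q.num)) * y ^ q.den, Or.inr ?_, fun c hc => ?_⟩
  · rw [Γ.mul _ _ p1 (pow_ne_zero _ h.y_ne), g.base h, v_pow Γ h.y_ne, g.vy h, p2]
    simp
  have e : algebraMap K L (π ^ (-q.num)) * y ^ q.den - algebraMap ℂ L c =
      aeval y (monomial q.den (π ^ (-q.num)) - C (algebraMap ℂ K c)) := by
    simp [aeval_monomial, ← IsScalarTower.algebraMap_apply]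
  have c1 : (monomial q.den (π ^ (-q.num)) - C (algebraMap ℂ K c)).coeff q.den = π ^ (-q.num) := by
    simp [coeff_C, q.den_nz]
  have c2 := c1.trans_ne (zpow_ne_zero _ p0)
  have n : monomial q.den (π ^ (-q.num)) - C (algebraMap ℂ K c) ≠ 0 := fun e =>
    c2 (by rw [e, coeff_zero])
  have l := wp_le (x := x) (γ := q) c2
  rw [c1, p2, ← h.w_poly n] at l
  have := (g.pos.1 (e ▸ hc)).resolve_left (h.ne n)
  rw [Rat.cast_def q, mul_div_cancel₀ _ (Nat.cast_ne_zero.2 q.den_nz), ← Rat.cast_def] at l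
  push_cast at l
  linarith

end

/-- A function that vanishes on the section `y = 0` has a positive value for large `γ`. -/
theorem Rat.pos_top (h : Rat K y) (x : DV K) {G : DV L} (hG : ∀ c : K, algebraMap K L c ∈ G.F 0)
    (h1 : G.v y = 1) {g : L} (hg : g ∈ G.F 1) (n : ℝ) :
    ∀ᶠ γ in atTop, g = 0 ∨ n < w x y γ g := by
  by_cases h0 : g = 0
  · simp [h0]
  obtain ⟨c, hc⟩ := h.w_top x hG h1 h0
  have : (1 : ℝ) ≤ G.v g := by exact_mod_cast hg.resolve_left h0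
  filter_upwards [hc, eventually_gt_atTop (n - c), eventually_ge_atTop 0] with γ e1 e2 e3
  exact Or.inr (by nlinarith)

/-- A function that vanishes on the section `y = ∞` has a positive value for very negative `γ`. -/
theorem Rat.pos_bot (h : Rat K y) (x : DV K) {G : DV L} (hG : ∀ c : K, algebraMap K L c ∈ G.F 0)
    (h1 : G.v y = -1) {g : L} (hg : g ∈ G.F 1) (n : ℝ) :
    ∀ᶠ γ in atBot, g = 0 ∨ n < w x y γ g := by
  by_cases h0 : g = 0
  · simp [h0]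
  obtain ⟨c, hc⟩ := h.w_bot x hG h1 h0
  have : (1 : ℝ) ≤ G.v g := by exact_mod_cast hg.resolve_left h0
  filter_upwards [hc, eventually_lt_atBot (c - n), eventually_le_atBot 0] with γ e1 e2 e3
  exact Or.inr (by nlinarith)

/-- At `γ` the function of every generating chart has a positive value. -/
def Val (x : DV K) (y : L) (R : Finset L) (u : L → L) (γ : ℝ) : Prop :=
  ∀ r ∈ R, r ≠ 0 → (∀ r' ∈ R, r' ≠ 0 → ¬w x y γ r' < w x y γ r) → u r = 0 ∨ 0 < w x y γ (u r)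

variable {R : Finset L} {u : L → L}

theorem Gs.val {q : ℚ} {Γ : DV L} (g : Gs x y q Γ) :
    Val x y R u q ↔ ∀ r, GnS R Γ r → u r ∈ Γ.F 1 := by
  simp only [Val, g.gen, g.pos, and_imp]

theorem Rat.near (h : Rat K y) {γ₀ : ℝ} (h0 : Val x y R u γ₀) : ∀ᶠ γ in 𝓝 γ₀, Val x y R u γ := by
  refine (eventually_all_finset R).2 fun r hr => ?_
  by_cases r0 : r = 0
  · simp [r0]
  by_cases h1 : ∀ r' ∈ R, r' ≠ 0 → ¬w x y γ₀ r' < w x y γ₀ r
  · rcases h0 r hr r0 h1 with e | e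
    · simp [e]
    · exact (continuousAt_const.eventually_lt (h.w_cont _).continuousAt e).mono
        fun γ hγ _ _ => Or.inr hγ
  · push Not at h1
    obtain ⟨r', h2, h3, h4⟩ := h1
    exact ((h.w_cont _).continuousAt.eventually_lt (h.w_cont _).continuousAt h4).mono
      fun γ hγ _ h5 => absurd hγ (h5 r' h2 h3)

theorem lc_lt {φ ψ : ℝ → ℝ} {γ₀ : ℝ} (hγ : Irrational γ₀)
    (h1 : ∃ i c : ℤ, ∀ᶠ γ in 𝓝 γ₀, φ γ = i * γ + c) (h2 : ∃ i c : ℤ, ∀ᶠ γ in 𝓝 γ₀, ψ γ = i * γ + c) :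
    ∀ᶠ γ in 𝓝 γ₀, (φ γ < ψ γ ↔ φ γ₀ < ψ γ₀) := by
  obtain ⟨i, c, h1⟩ := h1
  obtain ⟨j, d, h2⟩ := h2
  rw [h1.self_of_nhds, h2.self_of_nhds]
  have k : ∀ {i j c d : ℤ}, i * γ₀ + c < j * γ₀ + d → ∀ᶠ γ : ℝ in 𝓝 γ₀, i * γ + c < j * γ + d :=
    fun {i j c d} h => ContinuousAt.eventually_lt (f := fun γ : ℝ => i * γ + c)
      (g := fun γ : ℝ => j * γ + d) (by fun_prop) (by fun_prop) h
  rcases lt_trichotomy (i * γ₀ + c) (j * γ₀ + d) with h | h | h
  · filter_upwards [h1, h2, k h] with γ e1 e2 e3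
    rw [e1, e2]
    exact iff_of_true e3 h
  · have e : i = j := by
      by_contra e
      have : (i : ℝ) - j ≠ 0 := sub_ne_zero.2 (by exact_mod_cast e)
      exact hγ ⟨(d - c) / (i - j), by push_cast; field_simp; linarith⟩
    subst e
    filter_upwards [h1, h2] with γ e1 e2
    rw [e1, e2, add_lt_add_iff_left, add_lt_add_iff_left]
  · filter_upwards [h1, h2, k h] with γ e1 e2 e3
    rw [e1, e2]
    exact iff_of_false e3.not_gt h.not_gt

theorem Rat.lc (h : Rat K y) {γ₀ : ℝ} (hγ : Irrational γ₀) :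
    ∀ᶠ γ in 𝓝 γ₀, (Val x y R u γ ↔ Val x y R u γ₀) := by
  have h1 := (eventually_all_finset R).2 fun r _ => (eventually_all_finset R).2 fun r' _ =>
    lc_lt hγ (h.w_irr (x := x) r' hγ) (h.w_irr (x := x) r hγ)
  have h2 := (eventually_all_finset R).2 fun r _ =>
    lc_lt (φ := fun _ => 0) hγ ⟨0, 0, by simp⟩ (h.w_irr (x := x) (u r) hγ)
  filter_upwards [h1, h2] with γ e1 e2
  refine forall₂_congr fun r hr => imp_congr_right fun _ => imp_congr
    (forall₂_congr fun r' hr' => ?_) (or_congr_right (e2 r hr))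
  rw [e1 r hr r' hr']

theorem exists_gen (Γ : DV L) [Algebra ℂ L] (hR : ∃ r ∈ R, r ≠ 0) : ∃ r, GnS R Γ r := by
  classical
  obtain ⟨r, h1, h2⟩ := Finset.exists_min_image (R.filter (· ≠ 0)) Γ.v (by simpa [Finset.Nonempty])
  rw [Finset.mem_filter] at h1
  refine ⟨r, h1.1, h1.2, fun s hs => ?_⟩
  by_cases h0 : s = 0
  · simp [h0]
  have := h2 s (Finset.mem_filter.2 ⟨hs, h0⟩)
  exact Or.inr (by rw [div_eq_mul_inv, Γ.mul _ _ h0 (inv_ne_zero h1.2), Γ.inv]; omega)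

/-- The value of a family of local functions is constant along the family of valuations. -/
theorem Rat.path [Algebra ℂ K] [Algebra ℂ L] [IsScalarTower ℂ K L] (h : Rat K y)
    (hx : ∀ c : ℂ, algebraMap ℂ K c ∈ x.F 0) (hR : ∃ r ∈ R, r ≠ 0) {I : Set ℝ}
    (hI : IsPreconnected I) (ho : IsOpen I)
    (h1 : ∀ (q : ℚ) Γ, (q : ℝ) ∈ I → Gs x y q Γ → ∀ r, GnS R Γ r →
      ∃ κ : ℂ, u r - algebraMap ℂ L κ ∈ Γ.F 1)
    (h2 : ∀ (q : ℚ) Γ, (q : ℝ) ∈ I → Gs x y q Γ → ∀ r r', GnS R Γ r → GnS R Γ r' →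
      u r - u r' ∈ Γ.F 1) :
    ∃ κ : ℂ, ∀ (q : ℚ) Γ, (q : ℝ) ∈ I → Gs x y q Γ → ∀ r, GnS R Γ r →
      u r - algebraMap ℂ L κ ∈ Γ.F 1 := by
  have ex : ∀ q : ℚ, (q : ℝ) ∈ I → ∃ κ : ℂ, Val x y R (fun r => u r - algebraMap ℂ L κ) q :=
    fun q hq => by
      obtain ⟨Γ, g⟩ := h.exists_gs x q
      obtain ⟨r, hr⟩ := exists_gen Γ hR
      obtain ⟨κ, hκ⟩ := h1 q Γ hq g r hr
      exact ⟨κ, g.val.2 fun r' hr' => by simpa using add_mem (h2 q Γ hq g r' r hr' hr) hκ⟩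
  have un : ∀ (q : ℚ) (κ κ' : ℂ), Val x y R (fun r => u r - algebraMap ℂ L κ) q →
      Val x y R (fun r => u r - algebraMap ℂ L κ') q → κ = κ' := fun q κ κ' e e' => by
    obtain ⟨Γ, g⟩ := h.exists_gs x q
    obtain ⟨r, hr⟩ := exists_gen Γ hR
    have := sub_mem (g.val.1 e' r hr) (g.val.1 e r hr)
    rw [sub_sub_sub_cancel_left, ← map_sub, DV.mem_F, map_eq_zero, sub_eq_zero,
      IsScalarTower.algebraMap_apply ℂ K L, g.base h, v_triv hx] at this
    exact this.resolve_right (by simp)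
  rcases I.eq_empty_or_nonempty with rfl | ⟨γ₀, h0⟩
  · exact ⟨0, fun _ _ h => h.elim⟩
  obtain ⟨q₀, hq₀⟩ := Rat.denseRange_cast.mem_nhds (ho.mem_nhds h0)
  obtain ⟨κ, hκ⟩ := ex q₀ hq₀
  have := hI.subset_of_closure_inter_subset (u := {γ | ∀ᶠ δ in 𝓝 γ, δ ∈ Set.range ((↑) : ℚ → ℝ) →
      Val x y R (fun r => u r - algebraMap ℂ L κ) δ}) isOpen_setOfPred_eventually_nhds
    ⟨q₀, hq₀, (h.near hκ).mono fun _ h _ => h⟩ fun γ ⟨g1, g2⟩ => by
      have k : ∀ N ∈ 𝓝 γ, ∃ q : ℚ, (q : ℝ) ∈ N ∧ Val x y R (fun r => u r - algebraMap ℂ L κ) q :=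
        fun N hN => by
          obtain ⟨δ, d1, d2⟩ := ((mem_closure_iff_frequently.1 g1).and_eventually
            (eventually_mem_nhds_iff.2 hN)).exists
          obtain ⟨q, d3, d4⟩ := Rat.denseRange_cast.mem_nhds (inter_mem d2 d1)
          exact ⟨q, d3, d4 ⟨q, rfl⟩⟩
      by_cases hγ : Irrational γ
      · obtain ⟨q, d1, d2⟩ := k _ (h.lc (x := x) (R := R)
          (u := fun r => u r - algebraMap ℂ L κ) hγ)
        exact (h.near (d1.1 d2)).mono fun _ h _ => h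
      · obtain ⟨q, rfl⟩ := not_not.1 hγ
        obtain ⟨κ', hκ'⟩ := ex q g2
        obtain ⟨q', d1, d2⟩ := k _ (h.near hκ')
        exact (h.near (un q' _ _ d1 d2 ▸ hκ')).mono fun _ h _ => h
  exact ⟨κ, fun q Γ hq g => g.val.1 ((this hq).self_of_nhds ⟨q, rfl⟩)⟩

end

end Pool.Agent.MP_ee8c61_ag.Q3G
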